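import Pool.Agent.helper32.PN.Spec

set_option autoImplicit false

namespace Pool.Agent.PN

open Module Polynomial Pool.Agent.helper27.PC

theorem EXPN_sum (h : SMC_stmt) {ι : Type} {s : ℕ} (F : Finset ι) (p : ι → ℕ → ℤ[X]) (hp : ∀ y ∈ F, Sm s (p y)) :
    Sm s (fun k => ∑ y ∈ F, p y k) := by
  classical
  induction F using Finset.induction_on with
  | empty =>
    simp only [Finset.sum_empty]
    exact h.1 s
  | insert a F ha ih =>
    have e : (fun k => ∑ y ∈ insert a F, p y k) = fun k => p a k + ∑ y ∈ F, p y k := by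
      funext k
      rw [Finset.sum_insert ha]
    rw [e]
    exact h.2.1 s _ _ (hp a (Finset.mem_insert_self a F)) (ih fun y hy => hp y (Finset.mem_insert_of_mem hy))

theorem EXPN_const (h : SMC_stmt) (n : ℕ) : Sm 0 fun _ => (X : ℤ[X]) ^ n := by
  have h6 := h.2.2.2.2.2.1 0 0 1 (fun _ => 1) (fun _ => n) le_rfl (fun k _ => by simp)
  simpa using h6

theorem EXPN_lin (h : SMC_stmt) (K m n : ℕ) : Sm 1 fun k => (-1 : ℤ[X]) ^ n * X ^ (k + m - K) := by
  have h6 := h.2.2.2.2.2.1 1 1 (K + 1) (fun _ => (-1) ^ n) (fun k => k + m - K) le_rfl (fun k _ => by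
    constructor
    · rw [abs_pow, abs_neg, abs_one, one_pow]
      simp
    · omega)
  have e : (fun k : ℕ => (-1 : ℤ[X]) ^ n * X ^ (k + m - K)) = fun k => C ((-1 : ℤ) ^ n) * X ^ (k + m - K) := by
    funext k
    simp
  rw [e]
  exact h6

theorem EXPN_rec (hR : REM_stmt) (hH : HOL_stmt) (t s : Bool) (K c : ℕ) (ρ : List ℕ) (q i : ℕ) (T : St) (hc : Odd c)
    (hT : T ∈ ends i (base s K)) (k : ℕ) (hk : i + K < k) :
    Af t s K (c :: ρ) q i T k = X ^ (i + tb t s) * Af t s K ρ (q + c) i T k +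
      ∑ y ∈ remv c T, (-1) ^ cnt T (dn c y) c * X ^ (k + (ρ.sum + y.2 + tb t y.1) - K) *
        Af t s K ρ (q + c) (i - c) (rem c T y) k := by
  have hc1 : 1 ≤ c := hc.pos
  have hs1 : k + (c :: ρ).sum + q = k + ρ.sum + (q + c) := by
    rw [List.sum_cons]
    ring
  have hs2 : (ρ ++ List.replicate k 1).sum = ρ.sum + k := by
    rw [List.sum_append, List.sum_replicate, smul_eq_mul, mul_one]
  unfold Af
  rw [hs1]
  obtain ⟨m, hm⟩ : ∃ m, m = k + ρ.sum + (q + c) := ⟨_, rfl⟩
  rw [← hm, List.cons_append]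
  have hU : U t m (c :: (ρ ++ List.replicate k 1)) (emb s K m (q + i) T) =
      ∑ y ∈ remv c (emb s K m (q + i) T), (-1) ^ cnt (emb s K m (q + i) T) (dn c y) c *
        wP t m (ρ ++ List.replicate k 1).sum c (dn c y) *
          U t m (ρ ++ List.replicate k 1) (rem c (emb s K m (q + i) T) y) := rfl
  have hR' := hR s K m (q + i) c T (wP t m (ρ ++ List.replicate k 1).sum c) (U t m (ρ ++ List.replicate k 1)) hc1
    (by omega)
  rw [hU, hR', hs2]
  have hev : Even (c - 1) := by
    obtain ⟨r, hr⟩ := hc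
    exact ⟨r, by omega⟩
  rw [hev.neg_one_pow, one_mul]
  have hw1 : wP t m (ρ.sum + k) c (s, q + i) = X ^ (i + tb t s) := by
    unfold wP
    congr 1
    show ρ.sum + k + c + (q + i) + tb t s - m = i + tb t s
    omega
  have e1 : q + i + c = q + c + i := by ring
  rw [hw1, e1]
  congr 1
  refine Finset.sum_congr rfl fun y hy => ?_
  obtain ⟨hci, hrem, -⟩ := (hH s K i T hT).2.2.1 c hc1 y hy
  have hy2 : c ≤ y.2 := (Finset.mem_filter.1 hy).2.1
  have hw2 : wP t m (ρ.sum + k) c (up (m - K) (dn c y)) = X ^ (k + (ρ.sum + y.2 + tb t y.1) - K) := by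
    unfold wP
    congr 1
    show ρ.sum + k + c + (y.2 - c + (m - K)) + tb t y.1 - m = k + (ρ.sum + y.2 + tb t y.1) - K
    omega
  have e2 : q + c + (i - c) = q + i := by omega
  rw [hw2, e2]

theorem EXPN_V0 (t s : Bool) (K c : ℕ) (ρ : List ℕ) (q i : ℕ) (T : St) (k : ℕ) :
    V0f t s K (c :: ρ) q i T k = X ^ (i + tb t s) * V0f t s K ρ (q + c) i T k := by
  unfold V0f
  have e1 : (c :: ρ).sum + q = ρ.sum + (q + c) := by
    rw [List.sum_cons]
    ring
  rw [e1, List.length_cons, ← mul_assoc, ← pow_add]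
  congr 2
  ring

theorem EXPN_V1 (t s : Bool) (K c : ℕ) (ρ : List ℕ) (q i : ℕ) (T : St) (k : ℕ) :
    V1f t s K (c :: ρ) q i T k = X ^ (i + tb t s) * V1f t s K ρ (q + c) i T k +
      ∑ y ∈ remv c T, (-1) ^ cnt T (dn c y) c * X ^ (k + (ρ.sum + y.2 + tb t y.1) - K) *
        V0f t s K ρ (q + c) (i - c) (rem c T y) k := by
  unfold V1f
  rw [List.length_cons, Finset.sum_range_succ']
  congr 1
  · rw [Finset.mul_sum]
    refine Finset.sum_congr rfl fun j _ => ?_
    rw [Finset.mul_sum, List.getD_cons_succ]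
    refine Finset.sum_congr rfl fun y _ => ?_
    rw [List.drop_succ_cons, List.take_succ_cons, List.sum_cons]
    have e1 : q + (c + (List.take (j + 1) ρ).sum) = q + c + (List.take (j + 1) ρ).sum := by ring
    have e2 : (j + 1) * (i + tb t s) + (k + (List.drop (j + 1) ρ).sum + y.2 + tb t y.1 - K) =
        (i + tb t s) + (j * (i + tb t s) + (k + (List.drop (j + 1) ρ).sum + y.2 + tb t y.1 - K)) := by ring
    rw [e1, e2, pow_add X (i + tb t s)]
    ring
  · rw [List.getD_cons_zero]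
    refine Finset.sum_congr rfl fun y _ => ?_
    have e1 : 0 * (i + tb t s) + (k + (List.drop (0 + 1) (c :: ρ)).sum + y.2 + tb t y.1 - K) =
        k + (ρ.sum + y.2 + tb t y.1) - K := by
      have : List.drop (0 + 1) (c :: ρ) = ρ := by simp
      rw [this]
      have h2 : k + ρ.sum + y.2 + tb t y.1 = k + (ρ.sum + y.2 + tb t y.1) := by ring
      rw [h2]
      ring
    have e2 : List.drop (0 + 1) (c :: ρ) = ρ := by simp
    have e3 : (List.take (0 + 1) (c :: ρ)).sum = c := by simp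
    rw [e1, e2, e3]

theorem EXPN_base (hA : A0_stmt) (hS : SMC_stmt) (t s : Bool) (K q i : ℕ) (T : St) (hi : i ≤ K)
    (hT : T ∈ ends i (base s K)) : Sm (tb t s) (Af t s K [] q i T) := by
  classical
  have h := hA t s K q i T hi hT
  choose! φ e hφ using h
  obtain ⟨D, hD⟩ : ∃ D : ℤ, D = pt t K T - pt t K (base s K) := ⟨_, rfl⟩
  obtain ⟨B, hB⟩ : ∃ B : ℕ, B = i * (i + 1) + 2 * (tb t s * i) + D.natAbs + np i (base s K) T + i + K + 1 := ⟨_, rfl⟩
  refine hS.2.2.2.2.1 (tb t s) (fun k => C ((φ k : ℤ)) * X ^ (e k)) _ B ?_ ?_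
  · intro k hk
    obtain ⟨h1, -, -, -⟩ := hφ k (by omega)
    rw [h1]
    simp
  · refine hS.2.2.2.2.2.1 (tb t s) (i + tb t s) B (fun k => (φ k : ℤ)) e (by omega) fun k hk => ?_
    obtain ⟨-, h2, -, h4⟩ := hφ k (by omega)
    constructor
    · have e1 : i + tb t s - tb t s = i := by omega
      rw [e1, Nat.abs_cast]
      have h5 : φ k ≤ B * k ^ i := by
        refine h4.trans ?_
        have h6 : k.choose i ≤ k ^ i := Nat.choose_le_pow k i
        calc k.choose i * np i (base s K) T ≤ k ^ i * B := Nat.mul_le_mul h6 (by omega)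
          _ = B * k ^ i := by ring
      exact_mod_cast h5
    · have h7 : D.natAbs ≤ B := by omega
      have h8 : (i : ℤ) * (i + 1) + 2 * (tb t s * i) + D.natAbs ≤ B := by
        have : i * (i + 1) + 2 * (tb t s * i) + D.natAbs ≤ B := by omega
        exact_mod_cast this
      have h9 : -(D.natAbs : ℤ) ≤ D := by omega
      rw [← hD] at h2
      have h10 : ((i + tb t s) * k : ℤ) ≤ e k + B := by
        have h11 : (0 : ℤ) ≤ B := Int.natCast_nonneg B
        nlinarith
      exact_mod_cast h10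

theorem EXPN (hA : A0_stmt) (hR : REM_stmt) (hS : SMC_stmt) (hH : HOL_stmt) : EXPN_stmt := by
  intro t s K ρ
  induction ρ with
  | nil =>
    intro q i T _ hi hT
    have e0 : V0f t s K [] q i T = Af t s K [] q i T := by
      funext k
      unfold V0f
      simp
    have e1 : V1f t s K [] q i T = fun _ => 0 := by
      funext k
      unfold V1f
      simp
    rw [e0, e1]
    refine ⟨EXPN_base hA hS t s K q i T hi hT, hS.1 _, ?_⟩
    have e2 : (fun k => Af t s K [] q i T k - Af t s K [] q i T k - 0) = fun _ => (0 : ℤ[X]) := by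
      funext k
      ring
    rw [e2]
    exact hS.1 _
  | cons c ρ ih =>
    intro q i T hodd hi hT
    have hc : Odd c := hodd c (by simp)
    have hρ : ∀ a ∈ ρ, Odd a := fun a ha => hodd a (List.mem_cons_of_mem c ha)
    have hc1 : 1 ≤ c := hc.pos
    obtain ⟨i0, i1, i2⟩ := ih (q + c) i T hρ hi hT
    have hrem : ∀ y ∈ remv c T, i - c ≤ K ∧ rem c T y ∈ ends (i - c) (base s K) := by
      intro y hy
      obtain ⟨-, h2, -⟩ := (hH s K i T hT).2.2.1 c hc1 y hy
      exact ⟨by omega, h2⟩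
    have hX := EXPN_const hS (i + tb t s)
    have hmul : ∀ (n : ℕ) (p : ℕ → ℤ[X]), Sm n p → Sm n (fun k => X ^ (i + tb t s) * p k) := by
      intro n p hp
      have h := hS.2.2.1 0 n _ _ hX hp
      rwa [Nat.zero_add] at h
    have hout : ∀ (n : ℕ) (p : Lab → ℕ → ℤ[X]), (∀ y ∈ remv c T, Sm n (p y)) →
        Sm (n + 1) (fun k => ∑ y ∈ remv c T, (-1) ^ cnt T (dn c y) c * X ^ (k + (ρ.sum + y.2 + tb t y.1) - K) * p y k) := by
      intro n p hp
      refine EXPN_sum hS (remv c T)
        (fun y k => (-1) ^ cnt T (dn c y) c * X ^ (k + (ρ.sum + y.2 + tb t y.1) - K) * p y k) fun y hy => ?_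
      have h := hS.2.2.1 1 n _ _ (EXPN_lin hS K (ρ.sum + y.2 + tb t y.1) (cnt T (dn c y) c)) (hp y hy)
      rwa [Nat.add_comm 1 n] at h
    refine ⟨?_, ?_, ?_⟩
    · have e : V0f t s K (c :: ρ) q i T = fun k => X ^ (i + tb t s) * V0f t s K ρ (q + c) i T k := by
        funext k
        exact EXPN_V0 t s K c ρ q i T k
      rw [e]
      exact hmul _ _ i0
    · have e : V1f t s K (c :: ρ) q i T = fun k => X ^ (i + tb t s) * V1f t s K ρ (q + c) i T k +
          ∑ y ∈ remv c T, (-1) ^ cnt T (dn c y) c * X ^ (k + (ρ.sum + y.2 + tb t y.1) - K) *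
            V0f t s K ρ (q + c) (i - c) (rem c T y) k := by
        funext k
        exact EXPN_V1 t s K c ρ q i T k
      rw [e]
      refine hS.2.1 _ _ _ (hmul _ _ i1) ?_
      exact hout (tb t s) (fun y k => V0f t s K ρ (q + c) (i - c) (rem c T y) k) fun y hy =>
        (ih (q + c) (i - c) (rem c T y) hρ (hrem y hy).1 (hrem y hy).2).1
    · have h3 : Sm (tb t s + 1 + 1) (fun k => ∑ y ∈ remv c T, (-1) ^ cnt T (dn c y) c *
          X ^ (k + (ρ.sum + y.2 + tb t y.1) - K) *
            ((Af t s K ρ (q + c) (i - c) (rem c T y) k - V0f t s K ρ (q + c) (i - c) (rem c T y) k -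
              V1f t s K ρ (q + c) (i - c) (rem c T y) k) + V1f t s K ρ (q + c) (i - c) (rem c T y) k)) := by
        refine hout (tb t s + 1) (fun y k =>
            ((Af t s K ρ (q + c) (i - c) (rem c T y) k - V0f t s K ρ (q + c) (i - c) (rem c T y) k -
              V1f t s K ρ (q + c) (i - c) (rem c T y) k) + V1f t s K ρ (q + c) (i - c) (rem c T y) k)) fun y hy => ?_
        obtain ⟨j0, j1, j2⟩ := ih (q + c) (i - c) (rem c T y) hρ (hrem y hy).1 (hrem y hy).2
        exact hS.2.1 _ _ _ (hS.2.2.2.1 (tb t s + 2) (tb t s + 1) _ (by omega) j2) j1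
      have h4 := hS.2.1 (tb t s + 2) _ _ (hmul _ _ i2) h3
      refine hS.2.2.2.2.1 (tb t s + 2) _ _ (i + K + 1) (fun k hk => ?_) h4
      rw [EXPN_rec hR hH t s K c ρ q i T hc hT k (by omega), EXPN_V0, EXPN_V1]
      have e5 : ∀ y, (Af t s K ρ (q + c) (i - c) (rem c T y) k - V0f t s K ρ (q + c) (i - c) (rem c T y) k -
              V1f t s K ρ (q + c) (i - c) (rem c T y) k) + V1f t s K ρ (q + c) (i - c) (rem c T y) k =
          Af t s K ρ (q + c) (i - c) (rem c T y) k - V0f t s K ρ (q + c) (i - c) (rem c T y) k := by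
        intro y
        ring
      simp only [e5, mul_sub, Finset.sum_sub_distrib]
      ring

end Pool.Agent.PN
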